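import Pool.Agent.helper578_fan.Conn

/-! Cones over zero-dimensional compacta. -/

set_option autoImplicit false
set_option linter.dupNamespace false

open Set TopologicalSpace Topology Filter
open scoped unitInterval

namespace Pool.Agent.Helper578.Fan

universe u v

/-- `C(M)` is a retract of `2^M`: there is a continuous map `r` from the space `2^M` of nonempty
compact subsets of `M` (with the Vietoris topology) to itself, all of whose values are connected,
which fixes every connected member of `2^M`. -/
def CIsRetract (M : Type u) [TopologicalSpace M] : Prop :=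
  ∃ r : NonemptyCompacts M → NonemptyCompacts M, Continuous r ∧
    (∀ A : NonemptyCompacts M, IsConnected (r A : Set M)) ∧
    ∀ A : NonemptyCompacts M, IsConnected (A : Set M) → r A = A

/-- The relation on `Z × [0,1]` which identifies the points of `Z × {1}`. -/
def coneSetoid (Z : Type u) : Setoid (Z × I) where
  r p q := p = q ∨ (p.2 = 1 ∧ q.2 = 1)
  iseqv :=
    { refl := fun _ => Or.inl rfl
      symm := fun h => h.elim (fun h => Or.inl h.symm) (fun h => Or.inr ⟨h.2, h.1⟩)
      trans := fun h h' => by
        rcases h with rfl | h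
        · exact h'
        · rcases h' with rfl | h'
          · exact Or.inr h
          · exact Or.inr ⟨h.1, h'.2⟩ }

/-- The cone over `Z`: the quotient space `(Z × [0,1]) / (Z × {1})`. -/
def Cone (Z : Type u) : Type u := Quotient (coneSetoid Z)

instance (Z : Type u) [TopologicalSpace Z] : TopologicalSpace (Cone Z) :=
  inferInstanceAs (TopologicalSpace (Quotient (coneSetoid Z)))

instance (Z : Type u) [TopologicalSpace Z] [CompactSpace Z] : CompactSpace (Cone Z) :=
  inferInstanceAs (CompactSpace (Quotient (coneSetoid Z)))

theorem CIsRetract.of_homeo {M : Type u} {M' : Type v} [TopologicalSpace M] [TopologicalSpace M']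
    (e : M ≃ₜ M') (h : CIsRetract M') : CIsRetract M := by
  obtain ⟨r, hr, hc, hf⟩ := h
  refine ⟨fun A : NonemptyCompacts M => (r (A.map e e.continuous)).map e.symm e.symm.continuous,
    ?_, ?_, ?_⟩
  · exact (Continuous.nonemptyCompacts_map e.symm.continuous).comp
      (hr.comp (Continuous.nonemptyCompacts_map e.continuous))
  · intro A
    rw [NonemptyCompacts.coe_map]
    exact (hc _).image _ e.symm.continuous.continuousOn
  · intro A hA
    have h1 : IsConnected ((A.map e e.continuous : NonemptyCompacts M') : Set M') := by
      rw [NonemptyCompacts.coe_map]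
      exact hA.image _ e.continuous.continuousOn
    simp only
    rw [hf _ h1]
    apply SetLike.coe_injective
    rw [NonemptyCompacts.coe_map, NonemptyCompacts.coe_map, image_image]
    simp

variable {Z : Type u} [TopologicalSpace Z]

/-- the map from the cone to the fan over the range of `f` -/
noncomputable def toFan (f : Z → ℝ) : Cone Z → Fan (range f) :=
  Quotient.lift (fun p : Z × I => pt (1 - (p.2 : ℝ)) (⟨f p.1, mem_range_self _⟩ : range f))
    (by
      intro p q h
      rcases h with h | h
      · rw [h]
      · apply eq_of_rad_zero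
        · rw [rad_pt, h.1]
          simp only [Icc.coe_one, sub_self]
          exact cl_of_mem ⟨le_rfl, zero_le_one⟩
        · rw [rad_pt, h.2]
          simp only [Icc.coe_one, sub_self]
          exact cl_of_mem ⟨le_rfl, zero_le_one⟩)

theorem one_sub_mem (t : I) : 1 - (t : ℝ) ∈ Icc (0 : ℝ) 1 :=
  ⟨by linarith [t.2.2], by linarith [t.2.1]⟩

theorem continuous_toFan {f : Z → ℝ} (hf : Continuous f) : Continuous (toFan f) := by
  refine Continuous.quotient_lift ?_ _
  exact continuous_pt.comp
    (f := fun p : Z × I => (1 - (p.2 : ℝ), (⟨f p.1, mem_range_self _⟩ : range f))) (by fun_prop)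

omit [TopologicalSpace Z] in
theorem bijective_toFan {f : Z → ℝ} (hinj : Function.Injective f) [Nonempty Z] :
    Function.Bijective (toFan f) := by
  constructor
  · intro p q
    induction p using Quotient.inductionOn with
    | _ p =>
      induction q using Quotient.inductionOn with
      | _ q =>
        intro h
        apply Quotient.sound
        have h' : pt (1 - (p.2 : ℝ)) (⟨f p.1, mem_range_self _⟩ : range f) =
          pt (1 - (q.2 : ℝ)) (⟨f q.1, mem_range_self _⟩ : range f) := h
        have h1 : 1 - (p.2 : ℝ) = 1 - (q.2 : ℝ) := by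
          have := congrArg rad h'
          rw [rad_pt, rad_pt, cl_of_mem (one_sub_mem _), cl_of_mem (one_sub_mem _)] at this
          exact this
        have h2 : p.2 = q.2 := Subtype.ext (by linarith)
        by_cases hp : p.2 = 1
        · exact Or.inr ⟨hp, h2 ▸ hp⟩
        · left
          have hpos : 0 < 1 - (p.2 : ℝ) := by
            have : (p.2 : ℝ) ≠ 1 := fun h => hp (Subtype.ext h)
            have h3 := p.2.2.2
            rcases h3.lt_or_eq with h4 | h4
            · linarith
            · exact absurd h4 this
          have h3 := congrArg sl h'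
          rw [sl_pt (by rw [cl_of_mem (one_sub_mem _)]; exact hpos),
            sl_pt (by rw [cl_of_mem (one_sub_mem _), ← h1]; exact hpos)] at h3
          exact Prod.ext (hinj h3) h2
  · intro x
    by_cases hx : x ∈ Pos (range f)
    · obtain ⟨z, hz⟩ := sl_mem hx
      have ht : 1 - rad x ∈ Icc (0 : ℝ) 1 :=
        ⟨by linarith [rad_le_one x], by linarith [rad_nonneg x]⟩
      refine ⟨Quotient.mk _ (z, ⟨1 - rad x, ht⟩), ?_⟩
      show pt (1 - (1 - rad x)) (⟨f z, mem_range_self _⟩ : range f) = x
      have h2 := eq_pt hx
      rw [sub_sub_cancel]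
      have h3 : (⟨f z, mem_range_self _⟩ : range f) = ⟨sl x, sl_mem hx⟩ := Subtype.ext hz
      rw [h3]
      exact h2.symm
    · obtain ⟨z⟩ := (inferInstance : Nonempty Z)
      refine ⟨Quotient.mk _ (z, 1), ?_⟩
      show pt (1 - ((1 : I) : ℝ)) (⟨f z, mem_range_self _⟩ : range f) = x
      apply eq_of_rad_zero
      · rw [rad_pt]
        simp only [Icc.coe_one, sub_self]
        exact cl_of_mem ⟨le_rfl, zero_le_one⟩
      · exact le_antisymm (not_lt.1 hx) (rad_nonneg x)

/-- the cone is homeomorphic to the fan -/
noncomputable def coneHomeo [CompactSpace Z] [Nonempty Z] {f : Z → ℝ} (hf : Continuous f)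
    (hinj : Function.Injective f) : Cone Z ≃ₜ Fan (range f) :=
  Continuous.homeoOfEquivCompactToT2 (f := Equiv.ofBijective _ (bijective_toFan hinj))
    (continuous_toFan hf)

/-- a compact metrizable totally disconnected space embeds in `[0,1]` -/
theorem exists_embedding (Z : Type u) [TopologicalSpace Z] [CompactSpace Z] [MetrizableSpace Z]
    [TotallyDisconnectedSpace Z] :
    ∃ f : Z → ℝ, Continuous f ∧ Function.Injective f ∧ ∀ z, f z ∈ Icc (0 : ℝ) 1 := by
  classical
  let _ := metrizableSpaceMetric Z
  have hcount : Countable (Clopens Z) := Clopens.countable_iff_secondCountable.2 inferInstance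
  obtain ⟨e, he⟩ := exists_surjective_nat (Clopens Z)
  let g : Z → ℕ → Bool := fun z n => decide (z ∈ e n)
  have hg : Continuous g := by
    refine continuous_pi fun n => ?_
    have hcl : IsClopen ((e n : Set Z)) := (e n).isClopen
    refine (continuous_discrete_rng (f := fun z => g z n)).2 ?_
    intro b
    cases b
    · have : (fun z => g z n) ⁻¹' {false} = (e n : Set Z)ᶜ := by
        ext z
        simp [g]
      rw [this]
      exact hcl.compl.isOpen
    · have : (fun z => g z n) ⁻¹' {true} = (e n : Set Z) := by
        ext z
        simp [g]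
      rw [this]
      exact hcl.isOpen
  have hginj : Function.Injective g := by
    intro x y hxy
    by_contra hne
    obtain ⟨V, hV, hxV, hVy⟩ := compact_exists_isClopen_in_isOpen
      (isClosed_singleton (x := y)).isOpen_compl (show x ∈ ({y} : Set Z)ᶜ from hne)
    obtain ⟨n, hn⟩ := he ⟨V, hV⟩
    have h1 := congrFun hxy n
    have h2 : x ∈ e n := by rw [hn]; exact hxV
    have h3 : y ∉ e n := by rw [hn]; exact fun h => hVy h rfl
    simp only [g, h2, h3, decide_true, decide_false] at h1
    exact absurd h1 (by simp)
  refine ⟨fun z => (cantorSetHomeomorphNatToBool.symm (g z) : ℝ), ?_, ?_, ?_⟩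
  · exact continuous_subtype_val.comp (cantorSetHomeomorphNatToBool.symm.continuous.comp hg)
  · intro x y h
    exact hginj (cantorSetHomeomorphNatToBool.symm.injective (Subtype.ext h))
  · intro z
    exact cantorSet_subset_unitInterval (cantorSetHomeomorphNatToBool.symm (g z)).2

theorem isTotallyDisconnected_range [CompactSpace Z] [TotallyDisconnectedSpace Z] {f : Z → ℝ}
    (hf : Continuous f) (hinj : Function.Injective f) : IsTotallyDisconnected (range f) := by
  have he : IsClosedEmbedding f := hf.isClosedEmbedding hinj
  have h := he.isEmbedding.isTotallyDisconnected_range.2 inferInstance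
  exact h

/-- **Theorem.** For a nonempty compact metrizable totally disconnected `Z`, the hyperspace
`C(Cone Z)` is a retract of `2^(Cone Z)`. -/
theorem cone_retract (Z : Type u) [TopologicalSpace Z] [CompactSpace Z] [MetrizableSpace Z]
    [TotallyDisconnectedSpace Z] [Nonempty Z] : CIsRetract (Cone Z) := by
  obtain ⟨f, hf, hinj, hI⟩ := exists_embedding Z
  refine CIsRetract.of_homeo (coneHomeo hf hinj) ?_
  have hS : range f ⊆ Icc 0 1 := by
    rintro _ ⟨z, rfl⟩
    exact hI z
  have hK : IsCompact (range f) := isCompact_range hf
  have hTD := isTotallyDisconnected_range hf hinj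
  exact ⟨retr, continuous_retr hS, isConnected_retr, fun A hA => retr_fix hK hTD hA⟩

/-- a fan with a non-isolated slope is not locally connected -/
theorem not_locallyConnected {S : Set ℝ} (hTD : IsTotallyDisconnected S) {s0 : S}
    (hs0 : ¬ IsOpen ({s0} : Set S)) : ¬ LocallyConnectedSpace (Fan S) := by
  intro hLC
  apply hs0
  have h1 : cl 1 = 1 := cl_of_mem ⟨zero_le_one, le_rfl⟩
  have hpos : ∀ s : S, pt 1 s ∈ Pos S := by
    intro s
    show 0 < rad (pt 1 s)
    rw [rad_pt, h1]; exact zero_lt_one
  have hsl : ∀ s : S, sl (pt 1 s) = s := fun s => sl_pt (by rw [h1]; exact zero_lt_one) s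
  set C := connectedComponentIn (Pos S) (pt 1 s0) with hC
  have hCo : IsOpen C := isOpen_Pos.connectedComponentIn
  have hCs : C ⊆ Pos S := connectedComponentIn_subset _ _
  have hmem : pt 1 s0 ∈ C := mem_connectedComponentIn (hpos s0)
  have hsub : (sl '' C).Subsingleton := by
    apply hTD
    · rintro s ⟨a, ha, rfl⟩
      exact sl_mem (hCs ha)
    · exact isPreconnected_connectedComponentIn.image _ (continuousOn_sl.mono hCs)
  have hc : Continuous (fun s : S => pt 1 s) :=
    continuous_pt.comp (f := fun s : S => ((1 : ℝ), s)) (by fun_prop)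
  have : ({s0} : Set S) = (fun s : S => pt 1 s) ⁻¹' C := by
    ext s
    constructor
    · intro hs
      rw [mem_singleton_iff] at hs
      rw [hs]
      exact hmem
    · intro hs
      have h2 := hsub (mem_image_of_mem sl (show pt 1 s ∈ C from hs)) (mem_image_of_mem sl hmem)
      rw [hsl, hsl] at h2
      exact Subtype.ext h2
  rw [this]
  exact hCo.preimage hc

/-- the cone over a nonempty space is connected -/
theorem connected_cone (Z : Type u) [TopologicalSpace Z] [Nonempty Z] : ConnectedSpace (Cone Z) := by
  obtain ⟨z0⟩ := (inferInstance : Nonempty Z)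
  have hpre : IsPreconnected (univ : Set (Cone Z)) := by
    refine isPreconnected_of_forall (Quotient.mk (coneSetoid Z) (z0, 1)) ?_
    intro y _
    induction y using Quotient.inductionOn with
    | _ p =>
      refine ⟨(fun t : I => (Quotient.mk (coneSetoid Z) (p.1, t) : Cone Z)) '' univ,
        subset_univ _, ⟨1, mem_univ _, ?_⟩, ⟨p.2, mem_univ _, rfl⟩, ?_⟩
      · exact Quotient.sound (Or.inr ⟨rfl, rfl⟩)
      · refine isPreconnected_univ.image _ (Continuous.continuousOn ?_)
        exact continuous_quotient_mk'.comp (by fun_prop)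
  have : PreconnectedSpace (Cone Z) := ⟨hpre⟩
  exact ⟨⟨Quotient.mk (coneSetoid Z) (z0, 1)⟩⟩

/-- a compact metrizable space with exactly one limit point is totally disconnected -/
theorem totallyDisconnected_of_one_limit (Z : Type u) [TopologicalSpace Z] [T1Space Z]
    (h : ∃! z : Z, AccPt z (𝓟 (univ : Set Z))) : TotallyDisconnectedSpace Z := by
  obtain ⟨z0, _, huniq⟩ := h
  have hiso : ∀ z : Z, z ≠ z0 → IsOpen ({z} : Set Z) := by
    intro z hz
    by_contra hno
    apply hz
    apply huniq
    have : (𝓝[≠] z).NeBot := by
      rw [neBot_iff, ne_eq, ← isOpen_singleton_iff_punctured_nhds]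
      exact hno
    rw [AccPt, principal_univ, inf_top_eq]
    exact this
  refine ⟨?_⟩
  intro t _ ht x hx y hy
  by_contra hne
  -- one of the two points is isolated
  have key : ∀ a b : Z, a ∈ t → b ∈ t → a ≠ b → a ≠ z0 → False := by
    intro a b ha hb hab ha0
    have h1 : IsClopen ({a} : Set Z) := ⟨isClosed_singleton, hiso a ha0⟩
    have h2 := ht.subset_isClopen h1 ⟨a, ha, rfl⟩
    exact hab (h2 hb).symm
  by_cases hx0 : x = z0
  · exact key y x hy hx (Ne.symm hne) (fun h => hne (hx0.trans h.symm))
  · exact key x y hx hy hne hx0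

end Pool.Agent.Helper578.Fan
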