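import Pool.Agent.helper578_fan.Retr

/-! The retraction has connected values and fixes the connected sets. -/

set_option autoImplicit false
set_option linter.dupNamespace false

open Set TopologicalSpace Topology Filter
open scoped unitInterval

namespace Pool.Agent.Helper578.Fan

variable {S : Set ℝ}

theorem isConnected_Arc (ℓ u : ℝ) (s : S) : IsConnected (Arc ℓ u s : Set (Fan S)) := by
  unfold Arc
  rw [NonemptyCompacts.coe_map]
  have h : IsConnected ((⊤ : NonemptyCompacts I) : Set I) := by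
    rw [NonemptyCompacts.coe_top]
    exact isConnected_univ
  exact h.image _ (Continuous.continuousOn
    (continuous_pt.comp (f := fun c : I => (ℓ + (c : ℝ) * (u - ℓ), s)) (by fun_prop)))

theorem rad_sc_zero (x : Fan S) : rad (sc 0 x) = 0 := by
  rw [rad_sc, cl_of_mem ⟨le_rfl, zero_le_one⟩, zero_mul]

theorem isConnected_Hull (k : ℝ) (A : NonemptyCompacts (Fan S)) :
    IsConnected (Hull k A : Set (Fan S)) := by
  refine ⟨(Hull k A).nonempty, ?_⟩
  obtain ⟨a0, ha0⟩ := A.nonempty
  refine isPreconnected_of_forall (sc 0 a0) ?_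
  intro y hy
  obtain ⟨a, ha, c, hc, rfl⟩ := mem_Hull.1 hy
  refine ⟨(fun c : ℝ => sc (c * k) a) '' Icc (0 : ℝ) 1, ?_, ?_, ?_, ?_⟩
  · rintro z ⟨c', hc', rfl⟩
    exact mem_Hull.2 ⟨a, ha, c', hc', rfl⟩
  · refine ⟨0, ⟨le_rfl, zero_le_one⟩, ?_⟩
    simp only [zero_mul]
    exact eq_of_rad_zero (rad_sc_zero a) (rad_sc_zero a0)
  · exact ⟨c, hc, rfl⟩
  · refine isPreconnected_Icc.image _ (Continuous.continuousOn ?_)
    exact continuous_sc.comp (f := fun c : ℝ => (c * k, a)) (by fun_prop)

theorem isConnected_retr (A : NonemptyCompacts (Fan S)) :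
    IsConnected (retr A : Set (Fan S)) := by
  by_cases hA : (A : Set (Fan S)) ⊆ Pos S
  · have : retr A = rW ⟨A, hA⟩ := dif_pos hA
    rw [this]
    unfold rW
    split_ifs with h
    · exact isConnected_Arc _ _ _
    · rw [NonemptyCompacts.coe_sup]
      refine IsConnected.union ?_ (isConnected_Hull _ _) (isConnected_Arc _ _ _)
      rw [not_le] at h
      obtain ⟨a, ha⟩ := A.nonempty
      have hm := mn_pos ⟨A, hA⟩
      have hd := spr_nonneg ⟨A, hA⟩
      have hM := mn_le_mx A
      simp only at h hm hd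
      have hu0 : 0 ≤ the (mn A) (spr A) * mx A := by
        apply mul_nonneg _ (hm.le.trans hM)
        unfold the
        exact le_min zero_le_one (div_nonneg (by linarith) (hd.trans (le_max_left _ _)))
      refine ⟨sc 0 a, ?_, ?_⟩
      · exact mem_Hull.2 ⟨a, ha, 0, ⟨le_rfl, zero_le_one⟩, by rw [zero_mul]⟩
      · refine (mem_Arc hu0).2 ⟨0, ⟨le_rfl, hu0⟩, ?_⟩
        apply eq_of_rad_zero (rad_sc_zero a)
        rw [rad_pt, cl_of_mem ⟨le_rfl, zero_le_one⟩]
  · have : retr A = Hull 1 A := dif_neg hA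
    rw [this]
    exact isConnected_Hull _ _

theorem retr_fix_pos (hTD : IsTotallyDisconnected S) {A : NonemptyCompacts (Fan S)}
    (hc : IsConnected (A : Set (Fan S))) (hA : (A : Set (Fan S)) ⊆ Pos S) : retr A = A := by
  have hr : retr A = rW ⟨A, hA⟩ := dif_pos hA
  -- the slope is constant
  have hsub : (sl '' (A : Set (Fan S))).Subsingleton := by
    apply hTD
    · rintro s ⟨a, ha, rfl⟩
      exact sl_mem (hA ha)
    · exact hc.isPreconnected.image _ (continuousOn_sl.mono hA)
  obtain ⟨a1, ha1, h1⟩ := exists_hi ⟨A, hA⟩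
  obtain ⟨a2, ha2, h2⟩ := exists_lo ⟨A, hA⟩
  have hsl : ∀ a ∈ A, sl a = hi A := by
    intro a ha
    rw [← h1]
    exact hsub (mem_image_of_mem _ ha) (mem_image_of_mem _ ha1)
  have hsp : spr A = 0 := by
    unfold spr
    have h3 : lo A = sl a2 := h2.symm
    rw [h3, hsl a2 ha2, sub_self]
  have hm := mn_pos ⟨A, hA⟩
  simp only at hm
  have hmM := mn_le_mx A
  have hlow : low (mn A) 0 = mn A := by
    unfold low
    rw [sub_zero, min_eq_left (by linarith), max_eq_right hm.le]
  have hrW : rW ⟨A, hA⟩ = Arc (mn A) (mx A) (top ⟨A, hA⟩) := by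
    unfold rW
    simp only
    rw [hsp, if_pos hm.le, hlow]
  have hpt : ∀ a ∈ A, a = pt (rad a) (top ⟨A, hA⟩) := by
    intro a ha
    have h3 := eq_pt (hA ha)
    rw [h3]
    have h4 : (⟨sl a, sl_mem (hA ha)⟩ : S) = top ⟨A, hA⟩ := Subtype.ext (hsl a ha)
    rw [h4]
    congr 1
    rw [rad_pt, cl_of_mem ⟨rad_nonneg a, rad_le_one a⟩]
  rw [hr, hrW]
  apply SetLike.coe_injective
  ext x
  constructor
  · intro hx
    obtain ⟨τ, hτ, rfl⟩ := (mem_Arc hmM).1 hx
    obtain ⟨b1, hb1, hr1⟩ := exists_mn A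
    obtain ⟨b2, hb2, hr2⟩ := exists_mx A
    have hI : Icc (mn A) (mx A) ⊆ rad '' (A : Set (Fan S)) := by
      rw [← hr1, ← hr2]
      exact (hc.isPreconnected.image _ continuous_rad.continuousOn).Icc_subset
        (mem_image_of_mem _ hb1) (mem_image_of_mem _ hb2)
    obtain ⟨a, ha, hra⟩ := hI hτ
    have h5 := hpt a ha
    rw [hra] at h5
    rw [← h5]
    exact ha
  · intro hx
    exact (mem_Arc hmM).2 ⟨rad x, ⟨mn_le hx, le_mx hx⟩, hpt x hx⟩

theorem retr_fix_vertex (hK : IsCompact S) (hTD : IsTotallyDisconnected S)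
    {A : NonemptyCompacts (Fan S)} (hc : IsConnected (A : Set (Fan S)))
    (hA : ¬ (A : Set (Fan S)) ⊆ Pos S) : retr A = A := by
  have hr : retr A = Hull 1 A := dif_neg hA
  obtain ⟨v, hv, hv0⟩ := not_W hA
  have : CompactSpace S := isCompact_iff_compactSpace.1 hK
  have : TotallyDisconnectedSpace S := totallyDisconnectedSpace_subtype_iff.2 hTD
  rw [hr]
  apply SetLike.coe_injective
  ext x
  constructor
  · intro hx
    obtain ⟨a, ha, c, hc1, rfl⟩ := mem_Hull.1 hx
    rw [mul_one]
    show sc c a ∈ A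
    by_contra hnot
    -- the trivial cases
    have hcl : cl c = c := cl_of_mem hc1
    have hpos : 0 < c * rad a := by
      rcases (mul_nonneg hc1.1 (rad_nonneg a)).eq_or_lt with h | h
      · exfalso
        apply hnot
        have : sc c a = v := by
          apply eq_of_rad_zero _ hv0
          rw [rad_sc, hcl, ← h]
        rw [this]
        exact hv
      · exact h
    have hra : 0 < rad a := pos_of_mul_pos_right hpos hc1.1
    have haP : a ∈ Pos S := hra
    have hclt : c * rad a < rad a := by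
      rcases hc1.2.eq_or_lt with h | h
      · exfalso
        apply hnot
        have : sc c a = a := by
          apply Subtype.ext
          apply Prod.ext
          · show cl c * a.1.1 = a.1.1
            rw [hcl, h, one_mul]
          · show cl c * a.1.2 = a.1.2
            rw [hcl, h, one_mul]
        rw [this]
        exact ha
      · nlinarith
    set ρ := c * rad a with hρ
    have hρI : ρ ∈ Icc (0 : ℝ) 1 := ⟨hpos.le, hclt.le.trans (rad_le_one a)⟩
    -- the clopen set of slopes
    let s0 : S := ⟨sl a, sl_mem haP⟩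
    have hs0 : sc c a = pt ρ s0 := by
      apply Subtype.ext
      apply Prod.ext
      · show cl c * a.1.1 = cl ρ
        rw [hcl, cl_of_mem hρI]; rfl
      · show cl c * a.1.2 = cl ρ * sl a
        rw [hcl, cl_of_mem hρI, snd_eq haP, hρ]; ring
    have hO : IsOpen {s : S | pt ρ s ∉ A} := by
      have h1 : IsClosed (A : Set (Fan S)) := A.isCompact.isClosed
      have h2 : Continuous (fun s : S => pt ρ s) :=
        continuous_pt.comp (f := fun s : S => (ρ, s)) (by fun_prop)
      exact (h1.preimage h2).isOpen_compl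
    obtain ⟨K, hKc, hsK, hKO⟩ := compact_exists_isClopen_in_isOpen hO
      (show s0 ∈ {s : S | pt ρ s ∉ A} by rw [mem_ofPred_eq, ← hs0]; exact hnot)
    obtain ⟨K1, hK1, hK1e⟩ := isOpen_induced_iff.1 hKc.isOpen
    obtain ⟨K2, hK2, hK2e⟩ := isOpen_induced_iff.1 hKc.compl.isOpen
    have hV1 : IsOpen ({z : Fan S | ρ < rad z} ∩ (Pos S ∩ sl ⁻¹' K1)) :=
      (isOpen_lt continuous_const continuous_rad).inter
        (continuousOn_sl.isOpen_inter_preimage isOpen_Pos hK1)
    have hV2 : IsOpen ({z : Fan S | rad z < ρ} ∪ (Pos S ∩ sl ⁻¹' K2)) :=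
      (isOpen_lt continuous_rad continuous_const).union
        (continuousOn_sl.isOpen_inter_preimage isOpen_Pos hK2)
    have hmem1 : ∀ s : S, (s : ℝ) ∈ K1 ↔ s ∈ K := by
      intro s
      rw [← hK1e]; rfl
    have hmem2 : ∀ s : S, (s : ℝ) ∈ K2 ↔ s ∉ K := by
      intro s
      have : s ∈ Kᶜ ↔ s ∉ K := Iff.rfl
      rw [← this, ← hK2e]; rfl
    obtain ⟨z, hzA, ⟨hz1, hz1P, hz1K⟩, hz2⟩ := hc.isPreconnected _ _ hV1 hV2 (by
        intro z hz
        rcases lt_or_ge (rad z) ρ with h | h
        · right; left; exact h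
        · have hzP : z ∈ Pos S := lt_of_lt_of_le hpos h
          by_cases hzK : (⟨sl z, sl_mem hzP⟩ : S) ∈ K
          · left
            refine ⟨?_, hzP, (hmem1 ⟨sl z, sl_mem hzP⟩).2 hzK⟩
            rcases h.eq_or_lt with h' | h'
            · exfalso
              have h3 := hKO hzK
              have h4 := eq_pt hzP
              rw [← h'] at h4
              rw [h4] at hz
              exact h3 hz
            · exact h'
          · right; right
            exact ⟨hzP, (hmem2 ⟨sl z, sl_mem hzP⟩).2 hzK⟩)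
      ⟨a, ha, hclt, haP, (hmem1 s0).2 hsK⟩ ⟨v, hv, Or.inl (by
        show rad v < ρ
        rw [hv0]; exact hpos)⟩
    rcases hz2 with hz2 | ⟨_, hz2⟩
    · have h5 : ρ < rad z := hz1
      have h6 : rad z < ρ := hz2
      linarith
    · exact ((hmem2 ⟨sl z, sl_mem hz1P⟩).1 hz2) ((hmem1 ⟨sl z, sl_mem hz1P⟩).1 hz1K)
  · intro hx
    refine mem_Hull.2 ⟨x, hx, 1, ⟨zero_le_one, le_rfl⟩, ?_⟩
    have h1 : cl (1 * 1) = 1 := by rw [one_mul]; exact cl_of_mem ⟨zero_le_one, le_rfl⟩
    apply Subtype.ext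
    apply Prod.ext
    · show x.1.1 = cl (1 * 1) * x.1.1
      rw [h1, one_mul]
    · show x.1.2 = cl (1 * 1) * x.1.2
      rw [h1, one_mul]

theorem retr_fix (hK : IsCompact S) (hTD : IsTotallyDisconnected S)
    {A : NonemptyCompacts (Fan S)} (hc : IsConnected (A : Set (Fan S))) : retr A = A := by
  by_cases hA : (A : Set (Fan S)) ⊆ Pos S
  · exact retr_fix_pos hTD hc hA
  · exact retr_fix_vertex hK hTD hc hA

end Pool.Agent.Helper578.Fan
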