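import Mathlib

/-!
# Retractions of `2^M` onto `C(M)` for cones over zero-dimensional compacta (helper578)

`Fan S` is the cone over `S ⊆ ℝ`, realised in the plane.
-/

set_option autoImplicit false
set_option linter.dupNamespace false

open Set TopologicalSpace Topology Filter
open scoped unitInterval

namespace Pool.Agent.Helper578.Fan

/-- the plane fan over `S` -/
abbrev Fan (S : Set ℝ) : Type :=
  {p : ℝ × ℝ // p.1 ∈ Icc (0 : ℝ) 1 ∧ ∃ s ∈ S, p.2 = p.1 * s}

variable {S : Set ℝ}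

/-- clamp to `[0,1]` -/
noncomputable def cl (c : ℝ) : ℝ := max 0 (min 1 c)

theorem cl_mem (c : ℝ) : cl c ∈ Icc (0 : ℝ) 1 :=
  ⟨le_max_left _ _, max_le zero_le_one (min_le_left _ _)⟩

theorem cl_of_mem {c : ℝ} (hc : c ∈ Icc (0 : ℝ) 1) : cl c = c := by
  unfold cl
  rw [min_eq_right hc.2, max_eq_right hc.1]

theorem continuous_cl : Continuous cl := by
  unfold cl
  fun_prop

/-- the point with radius `τ` on the arc with slope `s` -/
noncomputable def pt (τ : ℝ) (s : S) : Fan S :=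
  ⟨(cl τ, cl τ * s), cl_mem τ, s, s.2, rfl⟩

theorem continuous_pt : Continuous (fun p : ℝ × S => pt p.1 p.2) := by
  unfold pt
  have := continuous_cl
  fun_prop

/-- scaling -/
noncomputable def sc (c : ℝ) (x : Fan S) : Fan S :=
  ⟨(cl c * x.1.1, cl c * x.1.2), ⟨mul_nonneg (cl_mem c).1 x.2.1.1,
    mul_le_one₀ (cl_mem c).2 x.2.1.1 x.2.1.2⟩, by
      obtain ⟨s, hs, h⟩ := x.2.2
      exact ⟨s, hs, by simp only; rw [h]; ring⟩⟩

theorem continuous_sc : Continuous (fun p : ℝ × Fan S => sc p.1 p.2) := by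
  unfold sc
  have := continuous_cl
  fun_prop

/-- radius -/
def rad (x : Fan S) : ℝ := x.1.1

/-- slope -/
noncomputable def sl (x : Fan S) : ℝ := x.1.2 / x.1.1

theorem continuous_rad : Continuous (rad : Fan S → ℝ) := by
  unfold rad
  fun_prop

/-- the points different from the vertex -/
def Pos (S : Set ℝ) : Set (Fan S) := {x | 0 < rad x}

theorem isOpen_Pos : IsOpen (Pos S) := isOpen_lt continuous_const continuous_rad

theorem continuousOn_sl : ContinuousOn (sl : Fan S → ℝ) (Pos S) := by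
  unfold sl
  apply ContinuousOn.div
  · fun_prop
  · fun_prop
  · intro x hx
    exact ne_of_gt hx

theorem sl_mem {x : Fan S} (hx : x ∈ Pos S) : sl x ∈ S := by
  obtain ⟨s, hs, h⟩ := x.2.2
  have hx' : x.1.1 ≠ 0 := ne_of_gt hx
  unfold sl
  rw [h, mul_div_cancel_left₀ _ hx']
  exact hs

theorem rad_nonneg (x : Fan S) : 0 ≤ rad x := x.2.1.1

theorem rad_le_one (x : Fan S) : rad x ≤ 1 := x.2.1.2

theorem snd_eq {x : Fan S} (hx : x ∈ Pos S) : x.1.2 = rad x * sl x := by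
  have hx' : x.1.1 ≠ 0 := ne_of_gt hx
  unfold rad sl
  field_simp

theorem eq_pt {x : Fan S} (hx : x ∈ Pos S) : x = pt (rad x) ⟨sl x, sl_mem hx⟩ := by
  apply Subtype.ext
  apply Prod.ext
  · show x.1.1 = cl (rad x)
    rw [cl_of_mem ⟨rad_nonneg x, rad_le_one x⟩]
    rfl
  · show x.1.2 = cl (rad x) * sl x
    rw [cl_of_mem ⟨rad_nonneg x, rad_le_one x⟩]
    exact snd_eq hx

theorem rad_pt (τ : ℝ) (s : S) : rad (pt τ s) = cl τ := rfl

theorem rad_sc (c : ℝ) (x : Fan S) : rad (sc c x) = cl c * rad x := rfl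

theorem sl_pt {τ : ℝ} (hτ : 0 < cl τ) (s : S) : sl (pt τ s) = s := by
  show cl τ * s / cl τ = s
  field_simp

theorem eq_of_rad_zero {x y : Fan S} (hx : rad x = 0) (hy : rad y = 0) : x = y := by
  obtain ⟨s, hs, h⟩ := x.2.2
  obtain ⟨s', hs', h'⟩ := y.2.2
  have hx' : x.1.1 = 0 := hx
  have hy' : y.1.1 = 0 := hy
  apply Subtype.ext
  apply Prod.ext
  · rw [hx', hy']
  · rw [h, h', hx', hy']; ring

/-! ### Suprema over compact sets -/

theorem sSup_mem {X : Type*} [TopologicalSpace X] {U : Set X} {g : X → ℝ}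
    (hg : ContinuousOn g U) {B : NonemptyCompacts X} (hB : (B : Set X) ⊆ U) :
    ∃ b ∈ (B : Set X), g b = sSup (g '' (B : Set X)) := by
  have h1 : IsCompact (g '' (B : Set X)) := B.isCompact.image_of_continuousOn (hg.mono hB)
  have h2 : (g '' (B : Set X)).Nonempty := B.nonempty.image g
  exact h1.sSup_mem h2

theorem le_sSup' {X : Type*} [TopologicalSpace X] {U : Set X} {g : X → ℝ}
    (hg : ContinuousOn g U) {B : NonemptyCompacts X} (hB : (B : Set X) ⊆ U) {b : X}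
    (hb : b ∈ (B : Set X)) : g b ≤ sSup (g '' (B : Set X)) := by
  have h1 : IsCompact (g '' (B : Set X)) := B.isCompact.image_of_continuousOn (hg.mono hB)
  exact le_csSup h1.bddAbove (mem_image_of_mem g hb)

theorem sInf_mem {X : Type*} [TopologicalSpace X] {U : Set X} {g : X → ℝ}
    (hg : ContinuousOn g U) {B : NonemptyCompacts X} (hB : (B : Set X) ⊆ U) :
    ∃ b ∈ (B : Set X), g b = sInf (g '' (B : Set X)) := by
  have h1 : IsCompact (g '' (B : Set X)) := B.isCompact.image_of_continuousOn (hg.mono hB)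
  have h2 : (g '' (B : Set X)).Nonempty := B.nonempty.image g
  exact h1.sInf_mem h2

theorem sInf_le' {X : Type*} [TopologicalSpace X] {U : Set X} {g : X → ℝ}
    (hg : ContinuousOn g U) {B : NonemptyCompacts X} (hB : (B : Set X) ⊆ U) {b : X}
    (hb : b ∈ (B : Set X)) : sInf (g '' (B : Set X)) ≤ g b := by
  have h1 : IsCompact (g '' (B : Set X)) := B.isCompact.image_of_continuousOn (hg.mono hB)
  exact csInf_le h1.bddBelow (mem_image_of_mem g hb)

theorem continuousAt_sSup {X : Type*} [TopologicalSpace X] {U : Set X} (hU : IsOpen U)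
    {g : X → ℝ} (hg : ContinuousOn g U) {A : NonemptyCompacts X} (hA : (A : Set X) ⊆ U) :
    ContinuousAt (fun B : NonemptyCompacts X => sSup (g '' (B : Set X))) A := by
  have hAU : ∀ᶠ B : NonemptyCompacts X in 𝓝 A, (B : Set X) ⊆ U :=
    (NonemptyCompacts.isOpen_subsets_of_isOpen hU).mem_nhds hA
  refine tendsto_order.2 ⟨fun c hc => ?_, fun c hc => ?_⟩
  · obtain ⟨a, ha, hga⟩ := sSup_mem hg hA
    have hV : IsOpen (U ∩ g ⁻¹' Ioi c) := hg.isOpen_inter_preimage hU isOpen_Ioi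
    have h1 : ∀ᶠ B : NonemptyCompacts X in 𝓝 A, ((B : Set X) ∩ (U ∩ g ⁻¹' Ioi c)).Nonempty :=
      (NonemptyCompacts.isOpen_inter_nonempty_of_isOpen hV).mem_nhds
        ⟨a, ha, hA ha, by show c < g a; rw [hga]; exact hc⟩
    filter_upwards [hAU, h1] with B hB1 hB2
    obtain ⟨b, hb, _, hb2⟩ := hB2
    exact lt_of_lt_of_le hb2 (le_sSup' hg hB1 hb)
  · have hV : IsOpen (U ∩ g ⁻¹' Iio c) := hg.isOpen_inter_preimage hU isOpen_Iio
    have h1 : ∀ᶠ B : NonemptyCompacts X in 𝓝 A, (B : Set X) ⊆ (U ∩ g ⁻¹' Iio c) :=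
      (NonemptyCompacts.isOpen_subsets_of_isOpen hV).mem_nhds
        (fun a ha => ⟨hA ha, lt_of_le_of_lt (le_sSup' hg hA ha) hc⟩)
    filter_upwards [hAU, h1] with B hB1 hB2
    obtain ⟨b, hb, hgb⟩ := sSup_mem hg hB1
    rw [← hgb]
    exact (hB2 hb).2

theorem continuousAt_sInf {X : Type*} [TopologicalSpace X] {U : Set X} (hU : IsOpen U)
    {g : X → ℝ} (hg : ContinuousOn g U) {A : NonemptyCompacts X} (hA : (A : Set X) ⊆ U) :
    ContinuousAt (fun B : NonemptyCompacts X => sInf (g '' (B : Set X))) A := by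
  have hAU : ∀ᶠ B : NonemptyCompacts X in 𝓝 A, (B : Set X) ⊆ U :=
    (NonemptyCompacts.isOpen_subsets_of_isOpen hU).mem_nhds hA
  refine tendsto_order.2 ⟨fun c hc => ?_, fun c hc => ?_⟩
  · have hV : IsOpen (U ∩ g ⁻¹' Ioi c) := hg.isOpen_inter_preimage hU isOpen_Ioi
    have h1 : ∀ᶠ B : NonemptyCompacts X in 𝓝 A, (B : Set X) ⊆ (U ∩ g ⁻¹' Ioi c) :=
      (NonemptyCompacts.isOpen_subsets_of_isOpen hV).mem_nhds
        (fun a ha => ⟨hA ha, lt_of_lt_of_le hc (sInf_le' hg hA ha)⟩)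
    filter_upwards [hAU, h1] with B hB1 hB2
    obtain ⟨b, hb, hgb⟩ := sInf_mem hg hB1
    rw [← hgb]
    exact (hB2 hb).2
  · obtain ⟨a, ha, hga⟩ := sInf_mem hg hA
    have hV : IsOpen (U ∩ g ⁻¹' Iio c) := hg.isOpen_inter_preimage hU isOpen_Iio
    have h1 : ∀ᶠ B : NonemptyCompacts X in 𝓝 A, ((B : Set X) ∩ (U ∩ g ⁻¹' Iio c)).Nonempty :=
      (NonemptyCompacts.isOpen_inter_nonempty_of_isOpen hV).mem_nhds
        ⟨a, ha, hA ha, by show g a < c; rw [hga]; exact hc⟩
    filter_upwards [hAU, h1] with B hB1 hB2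
    obtain ⟨b, hb, _, hb2⟩ := hB2
    exact lt_of_le_of_lt (sInf_le' hg hB1 hb) hb2

/-! ### The arcs and the hulls -/

/-- the part between the radii `ℓ` and `u` of the arc with slope `s` -/
noncomputable def Arc (ℓ u : ℝ) (s : S) : NonemptyCompacts (Fan S) :=
  NonemptyCompacts.map (fun c : I => pt (ℓ + (c : ℝ) * (u - ℓ)) s)
    (continuous_pt.comp (f := fun c : I => (ℓ + (c : ℝ) * (u - ℓ), s)) (by fun_prop)) ⊤

theorem mem_Arc {ℓ u : ℝ} {s : S} {x : Fan S} (hℓ : ℓ ≤ u) :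
    x ∈ Arc ℓ u s ↔ ∃ τ ∈ Icc ℓ u, x = pt τ s := by
  rw [← SetLike.mem_coe]
  unfold Arc
  rw [NonemptyCompacts.coe_map, mem_image]
  constructor
  · rintro ⟨c, _, rfl⟩
    refine ⟨_, ⟨?_, ?_⟩, rfl⟩
    · nlinarith [c.2.1]
    · nlinarith [c.2.2]
  · rintro ⟨τ, hτ, rfl⟩
    rcases eq_or_lt_of_le hℓ with h | h
    · refine ⟨0, ?_, ?_⟩
      · simp
      · have : τ = ℓ := le_antisymm (by rw [h]; exact hτ.2) hτ.1
        simp [this]
    · refine ⟨⟨(τ - ℓ) / (u - ℓ), ?_, ?_⟩, ?_, ?_⟩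
      · exact div_nonneg (by linarith [hτ.1]) (by linarith)
      · rw [div_le_one (by linarith)]
        linarith [hτ.2]
      · simp
      · have h' : u - ℓ ≠ 0 := by linarith
        simp only
        rw [div_mul_cancel₀ _ h']
        congr 1
        ring

/-- the scaled hull -/
noncomputable def Hull (k : ℝ) (A : NonemptyCompacts (Fan S)) : NonemptyCompacts (Fan S) :=
  NonemptyCompacts.map (fun p : Fan S × I => sc ((p.2 : ℝ) * k) p.1)
    (continuous_sc.comp (f := fun p : Fan S × I => ((p.2 : ℝ) * k, p.1)) (by fun_prop))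
    (A ×ˢ (⊤ : NonemptyCompacts I))

theorem mem_Hull {k : ℝ} {A : NonemptyCompacts (Fan S)} {x : Fan S} :
    x ∈ Hull k A ↔ ∃ a ∈ A, ∃ c ∈ Icc (0 : ℝ) 1, x = sc (c * k) a := by
  rw [← SetLike.mem_coe]
  unfold Hull
  rw [NonemptyCompacts.coe_map, mem_image]
  constructor
  · rintro ⟨p, hp, rfl⟩
    rw [NonemptyCompacts.coe_prod, mem_prod] at hp
    exact ⟨p.1, hp.1, p.2, p.2.2, rfl⟩
  · rintro ⟨a, ha, c, hc, rfl⟩
    refine ⟨(a, ⟨c, hc⟩), ?_, rfl⟩
    rw [NonemptyCompacts.coe_prod, mem_prod]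
    exact ⟨ha, by simp⟩

theorem continuous_Arc {P : Type*} [TopologicalSpace P] {ℓ u : P → ℝ} {s : P → S}
    (hℓ : Continuous ℓ) (hu : Continuous u) (hs : Continuous s) :
    Continuous (fun p => Arc (ℓ p) (u p) (s p)) := by
  unfold Arc
  refine Continuous.nonemptyCompacts_map' (f := fun _ : P => (⊤ : NonemptyCompacts I))
    (g := fun p c => pt (ℓ p + (c : ℝ) * (u p - ℓ p)) (s p)) continuous_const ?_
  show Continuous (fun q : P × I => pt (ℓ q.1 + (q.2 : ℝ) * (u q.1 - ℓ q.1)) (s q.1))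
  exact continuous_pt.comp (Continuous.prodMk (by fun_prop) (by fun_prop))

theorem continuous_Hull {P : Type*} [TopologicalSpace P] {k : P → ℝ}
    {A : P → NonemptyCompacts (Fan S)} (hk : Continuous k) (hA : Continuous A) :
    Continuous (fun p => Hull (k p) (A p)) := by
  unfold Hull
  refine Continuous.nonemptyCompacts_map' (f := fun p : P => A p ×ˢ (⊤ : NonemptyCompacts I))
    (g := fun p q => sc ((q.2 : ℝ) * k p) q.1) ?_ ?_
  · exact NonemptyCompacts.continuous_prod.comp (hA.prodMk continuous_const)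
  · show Continuous (fun q : P × (Fan S × I) => sc ((q.2.2 : ℝ) * k q.1) q.2.1)
    exact continuous_sc.comp (Continuous.prodMk (by fun_prop) (by fun_prop))

end Pool.Agent.Helper578.Fan
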