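import Pool.Agent.helper578_fan.Cone

/-! The harmonic fan. -/

set_option autoImplicit false
set_option linter.dupNamespace false

open Set TopologicalSpace Topology Filter
open scoped unitInterval

namespace Pool.Agent.Helper578.Fan

/-- the set `{0} ∪ {1/(n+1)}` -/
def Harm : Set ℝ := insert 0 (range (fun n : ℕ => (1 : ℝ) / ((n : ℝ) + 1)))

theorem isCompact_Harm : IsCompact Harm :=
  tendsto_one_div_add_atTop_nhds_zero_nat.isCompact_insert_range

theorem isTotallyDisconnected_Harm : IsTotallyDisconnected Harm :=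
  (Set.Countable.isTotallyDisconnected ((countable_range _).insert 0))

theorem Harm_subset : Harm ⊆ Icc 0 1 := by
  rintro x (rfl | ⟨n, rfl⟩)
  · exact ⟨le_rfl, zero_le_one⟩
  · have : (0 : ℝ) < (n : ℝ) + 1 := by positivity
    refine ⟨by positivity, ?_⟩
    simp only
    rw [div_le_one this]
    have : (0 : ℝ) ≤ n := by positivity
    linarith

theorem not_isOpen_Harm : ¬ IsOpen ({(⟨0, Or.inl rfl⟩ : Harm)} : Set Harm) := by
  intro h
  have ht : Tendsto (fun n : ℕ => (⟨(1 : ℝ) / ((n : ℝ) + 1), Or.inr ⟨n, rfl⟩⟩ : Harm)) atTop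
      (𝓝 ⟨0, Or.inl rfl⟩) := by
    rw [tendsto_subtype_rng]
    exact tendsto_one_div_add_atTop_nhds_zero_nat
  have h1 := ht.eventually (h.mem_nhds rfl)
  obtain ⟨n, hn⟩ := h1.exists
  have h2 : (1 : ℝ) / ((n : ℝ) + 1) = 0 := congrArg Subtype.val hn
  have : (0 : ℝ) < (1 : ℝ) / ((n : ℝ) + 1) := by positivity
  linarith

theorem compactSpace_Fan {S : Set ℝ} (hK : IsCompact S) (hne : S.Nonempty) :
    CompactSpace (Fan S) := by
  have : CompactSpace S := isCompact_iff_compactSpace.1 hK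
  obtain ⟨s0, hs0⟩ := hne
  refine ⟨?_⟩
  have h : (univ : Set (Fan S)) = range (fun p : I × S => pt (p.1 : ℝ) p.2) := by
    symm
    rw [range_eq_univ]
    intro x
    by_cases hx : x ∈ Pos S
    · exact ⟨(⟨rad x, rad_nonneg x, rad_le_one x⟩, ⟨sl x, sl_mem hx⟩), (eq_pt hx).symm⟩
    · refine ⟨(0, ⟨s0, hs0⟩), ?_⟩
      apply eq_of_rad_zero
      · rw [rad_pt]
        simp only [Icc.coe_zero]
        exact cl_of_mem ⟨le_rfl, zero_le_one⟩
      · exact le_antisymm (not_lt.1 hx) (rad_nonneg x)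
  rw [h]
  exact isCompact_range
    (continuous_pt.comp (f := fun p : I × S => ((p.1 : ℝ), p.2)) (by fun_prop))

theorem connectedSpace_Fan {S : Set ℝ} (hne : S.Nonempty) : ConnectedSpace (Fan S) := by
  obtain ⟨s0, hs0⟩ := hne
  have hpre : IsPreconnected (univ : Set (Fan S)) := by
    refine isPreconnected_of_forall (pt 0 ⟨s0, hs0⟩) ?_
    intro x _
    refine ⟨(fun c : ℝ => sc c x) '' Icc 0 1, subset_univ _, ⟨0, ⟨le_rfl, zero_le_one⟩, ?_⟩,
      ⟨1, ⟨zero_le_one, le_rfl⟩, ?_⟩, ?_⟩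
    · apply eq_of_rad_zero (rad_sc_zero x)
      rw [rad_pt]
      exact cl_of_mem ⟨le_rfl, zero_le_one⟩
    · have h1 : cl 1 = 1 := cl_of_mem ⟨zero_le_one, le_rfl⟩
      apply Subtype.ext
      apply Prod.ext
      · show cl 1 * x.1.1 = x.1.1
        rw [h1, one_mul]
      · show cl 1 * x.1.2 = x.1.2
        rw [h1, one_mul]
    · refine isPreconnected_Icc.image _ (Continuous.continuousOn ?_)
      exact continuous_sc.comp (f := fun c : ℝ => (c, x)) (by fun_prop)
  have : PreconnectedSpace (Fan S) := ⟨hpre⟩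
  exact ⟨⟨pt 0 ⟨s0, hs0⟩⟩⟩

/-- the harmonic fan is a continuum, it is not locally connected, and `C(M)` is a retract of
`2^M` -/
theorem harmonic_fan : CompactSpace (Fan Harm) ∧ ConnectedSpace (Fan Harm) ∧
    ¬ LocallyConnectedSpace (Fan Harm) ∧ CIsRetract (Fan Harm) :=
  ⟨compactSpace_Fan isCompact_Harm ⟨0, Or.inl rfl⟩, connectedSpace_Fan ⟨0, Or.inl rfl⟩,
    not_locallyConnected isTotallyDisconnected_Harm not_isOpen_Harm,
    retr, continuous_retr Harm_subset, isConnected_retr,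
    fun _ hA => retr_fix isCompact_Harm isTotallyDisconnected_Harm hA⟩

end Pool.Agent.Helper578.Fan
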