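import Pool.Agent.helper578_fan.Defs

/-! The retraction. -/

set_option autoImplicit false
set_option linter.dupNamespace false

open Set TopologicalSpace Topology Filter
open scoped unitInterval

namespace Pool.Agent.Helper578.Fan

variable {S : Set ℝ}

/-- the closed sets which do not contain the vertex -/
abbrev W (S : Set ℝ) : Type := {A : NonemptyCompacts (Fan S) // (A : Set (Fan S)) ⊆ Pos S}

theorem isOpen_W : IsOpen {A : NonemptyCompacts (Fan S) | (A : Set (Fan S)) ⊆ Pos S} :=
  NonemptyCompacts.isOpen_subsets_of_isOpen isOpen_Pos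

/-- least radius -/
noncomputable def mn (A : NonemptyCompacts (Fan S)) : ℝ := sInf (rad '' (A : Set (Fan S)))

/-- largest radius -/
noncomputable def mx (A : NonemptyCompacts (Fan S)) : ℝ := sSup (rad '' (A : Set (Fan S)))

/-- largest slope -/
noncomputable def hi (A : NonemptyCompacts (Fan S)) : ℝ := sSup (sl '' (A : Set (Fan S)))

/-- least slope -/
noncomputable def lo (A : NonemptyCompacts (Fan S)) : ℝ := sInf (sl '' (A : Set (Fan S)))

theorem continuous_mn : Continuous (mn : NonemptyCompacts (Fan S) → ℝ) := by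
  rw [continuous_iff_continuousAt]
  intro A
  exact continuousAt_sInf isOpen_univ continuous_rad.continuousOn (subset_univ _)

theorem continuous_mx : Continuous (mx : NonemptyCompacts (Fan S) → ℝ) := by
  rw [continuous_iff_continuousAt]
  intro A
  exact continuousAt_sSup isOpen_univ continuous_rad.continuousOn (subset_univ _)

theorem continuous_hi : Continuous (fun A : W S => hi A.1) := by
  rw [continuous_iff_continuousAt]
  intro A
  exact ContinuousAt.comp (f := Subtype.val) (g := hi)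
    (continuousAt_sSup isOpen_Pos continuousOn_sl A.2) continuous_subtype_val.continuousAt

theorem continuous_lo : Continuous (fun A : W S => lo A.1) := by
  rw [continuous_iff_continuousAt]
  intro A
  exact ContinuousAt.comp (f := Subtype.val) (g := lo)
    (continuousAt_sInf isOpen_Pos continuousOn_sl A.2) continuous_subtype_val.continuousAt

theorem mn_le {A : NonemptyCompacts (Fan S)} {a : Fan S} (ha : a ∈ A) : mn A ≤ rad a :=
  sInf_le' continuous_rad.continuousOn (subset_univ _) ha

theorem le_mx {A : NonemptyCompacts (Fan S)} {a : Fan S} (ha : a ∈ A) : rad a ≤ mx A :=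
  le_sSup' continuous_rad.continuousOn (subset_univ _) ha

theorem exists_mn (A : NonemptyCompacts (Fan S)) : ∃ a ∈ A, rad a = mn A :=
  sInf_mem continuous_rad.continuousOn (subset_univ _)

theorem exists_mx (A : NonemptyCompacts (Fan S)) : ∃ a ∈ A, rad a = mx A :=
  sSup_mem continuous_rad.continuousOn (subset_univ _)

theorem le_hi (A : W S) {a : Fan S} (ha : a ∈ A.1) : sl a ≤ hi A.1 :=
  le_sSup' continuousOn_sl A.2 ha

theorem lo_le (A : W S) {a : Fan S} (ha : a ∈ A.1) : lo A.1 ≤ sl a :=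
  sInf_le' continuousOn_sl A.2 ha

theorem exists_hi (A : W S) : ∃ a ∈ A.1, sl a = hi A.1 := sSup_mem continuousOn_sl A.2

theorem exists_lo (A : W S) : ∃ a ∈ A.1, sl a = lo A.1 := sInf_mem continuousOn_sl A.2

theorem hi_mem (A : W S) : hi A.1 ∈ S := by
  obtain ⟨a, ha, h⟩ := exists_hi A
  rw [← h]
  exact sl_mem (A.2 ha)

/-- the largest slope as an element of `S` -/
noncomputable def top (A : W S) : S := ⟨hi A.1, hi_mem A⟩

theorem continuous_top : Continuous (top : W S → S) := continuous_hi.subtype_mk _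

/-- the spread of the slopes -/
noncomputable def spr (A : NonemptyCompacts (Fan S)) : ℝ := hi A - lo A

theorem continuous_spr : Continuous (fun A : W S => spr A.1) := continuous_hi.sub continuous_lo

theorem spr_nonneg (A : W S) : 0 ≤ spr A.1 := by
  obtain ⟨a, ha, h⟩ := exists_hi A
  have := lo_le A ha
  unfold spr
  linarith

theorem mn_pos (A : W S) : 0 < mn A.1 := by
  obtain ⟨a, ha, h⟩ := exists_mn A.1
  rw [← h]
  exact A.2 ha

theorem mn_nonneg (A : NonemptyCompacts (Fan S)) : 0 ≤ mn A := by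
  obtain ⟨a, ha, h⟩ := exists_mn A
  rw [← h]
  exact rad_nonneg a

theorem mn_le_mx (A : NonemptyCompacts (Fan S)) : mn A ≤ mx A := by
  obtain ⟨a, ha, h⟩ := exists_mn A
  rw [← h]
  exact le_mx ha

theorem mx_le_one (A : NonemptyCompacts (Fan S)) : mx A ≤ 1 := by
  obtain ⟨a, ha, h⟩ := exists_mx A
  rw [← h]
  exact rad_le_one a

/-- lower end -/
noncomputable def low (m d : ℝ) : ℝ := max 0 (min m (2 * (m - d)))

/-- scale of the hull -/
noncomputable def lam (m d : ℝ) : ℝ := min 1 ((d - m) / m)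

/-- scale of the arc -/
noncomputable def the (m d : ℝ) : ℝ := min 1 (2 * m / max d m)

open Classical in
/-- the retraction away from the vertex -/
noncomputable def rW (A : W S) : NonemptyCompacts (Fan S) :=
  if spr A.1 ≤ mn A.1 then Arc (low (mn A.1) (spr A.1)) (mx A.1) (top A)
  else Hull (lam (mn A.1) (spr A.1)) A.1 ⊔ Arc 0 (the (mn A.1) (spr A.1) * mx A.1) (top A)

theorem Hull_zero_sup_Arc (A : W S) {u : ℝ} (hu : 0 ≤ u) (s : S) :
    Hull 0 A.1 ⊔ Arc 0 u s = Arc 0 u s := by
  apply SetLike.coe_injective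
  rw [NonemptyCompacts.coe_sup, union_eq_right]
  intro x hx
  obtain ⟨a, ha, c, hc, rfl⟩ := mem_Hull.1 hx
  refine (mem_Arc hu).2 ⟨0, ⟨le_rfl, hu⟩, ?_⟩
  have h0 : cl 0 = 0 := cl_of_mem ⟨le_rfl, zero_le_one⟩
  apply eq_of_rad_zero
  · rw [rad_sc, mul_zero, h0, zero_mul]
  · rw [rad_pt, h0]

theorem continuous_rW : Continuous (rW : W S → NonemptyCompacts (Fan S)) := by
  have hm : Continuous (fun A : W S => mn A.1) := continuous_mn.comp continuous_subtype_val
  have hM : Continuous (fun A : W S => mx A.1) := continuous_mx.comp continuous_subtype_val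
  have hd : Continuous (fun A : W S => spr A.1) := continuous_spr
  unfold rW
  refine continuous_if_le hd hm ?_ ?_ ?_
  · apply Continuous.continuousOn
    refine continuous_Arc ?_ hM continuous_top
    unfold low
    fun_prop
  · apply Continuous.continuousOn
    refine Continuous.sup ?_ ?_
    · refine continuous_Hull ?_ continuous_subtype_val
      unfold lam
      exact continuous_const.min ((hd.sub hm).div hm (fun A => (mn_pos A).ne'))
    · refine continuous_Arc continuous_const ?_ continuous_top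
      unfold the
      refine Continuous.mul (continuous_const.min ?_) hM
      refine (continuous_const.mul hm).div (hd.max hm) (fun A => ?_)
      exact (lt_of_lt_of_le (mn_pos A) (le_max_right _ _)).ne'
  · intro A hA
    have hmp := mn_pos A
    have h1 : lam (mn A.1) (spr A.1) = 0 := by
      unfold lam
      rw [hA, sub_self, zero_div, min_eq_right zero_le_one]
    have h2 : the (mn A.1) (spr A.1) = 1 := by
      unfold the
      rw [hA, max_self, mul_div_assoc, div_self hmp.ne']
      norm_num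
    have h3 : low (mn A.1) (spr A.1) = 0 := by
      unfold low
      rw [hA, sub_self, mul_zero, min_eq_right hmp.le, max_self]
    rw [h1, h2, h3, one_mul, Hull_zero_sup_Arc A (hmp.le.trans (mn_le_mx _))]

open Classical in
/-- the retraction -/
noncomputable def retr (A : NonemptyCompacts (Fan S)) : NonemptyCompacts (Fan S) :=
  if h : (A : Set (Fan S)) ⊆ Pos S then rW ⟨A, h⟩ else Hull 1 A

/-! ### Estimates -/

theorem dist_le {x y : Fan S} {e : ℝ} (h1 : |x.1.1 - y.1.1| ≤ e) (h2 : |x.1.2 - y.1.2| ≤ e) :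
    dist x y ≤ e := by
  rw [Subtype.dist_eq, Prod.dist_eq, Real.dist_eq, Real.dist_eq]
  exact max_le h1 h2

theorem pt_fst {τ : ℝ} (hτ : τ ∈ Icc (0 : ℝ) 1) (s : S) : (pt τ s).1.1 = τ := cl_of_mem hτ

theorem pt_snd {τ : ℝ} (hτ : τ ∈ Icc (0 : ℝ) 1) (s : S) : (pt τ s).1.2 = τ * s := by
  show cl τ * s = τ * s
  rw [cl_of_mem hτ]

theorem sc_fst {c : ℝ} (hc : c ∈ Icc (0 : ℝ) 1) (x : Fan S) : (sc c x).1.1 = c * rad x := by
  show cl c * x.1.1 = c * x.1.1
  rw [cl_of_mem hc]

theorem sc_snd {c : ℝ} (hc : c ∈ Icc (0 : ℝ) 1) {x : Fan S} (hx : x ∈ Pos S) :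
    (sc c x).1.2 = c * (rad x * sl x) := by
  show cl c * x.1.2 = _
  rw [cl_of_mem hc, snd_eq hx]

/-- a point of the top arc and a scaled point with the same radius -/
theorem dist_arc_sc (hS : S ⊆ Icc 0 1) (A : W S) {a : Fan S} (ha : a ∈ A.1) {c : ℝ}
    (hc : c ∈ Icc (0 : ℝ) 1) : dist (pt (c * rad a) (top A)) (sc c a) ≤ spr A.1 := by
  have hr0 := rad_nonneg a
  have hr1 := rad_le_one a
  have hτ : c * rad a ∈ Icc (0 : ℝ) 1 :=
    ⟨mul_nonneg hc.1 hr0, mul_le_one₀ hc.2 hr0 hr1⟩
  have hsp := spr_nonneg A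
  apply dist_le
  · rw [pt_fst hτ, sc_fst hc, sub_self, abs_zero]
    exact hsp
  · rw [pt_snd hτ, sc_snd hc (A.2 ha)]
    have h1 := le_hi A ha
    have h2 := lo_le A ha
    have h3 : c * rad a * (top A : ℝ) - c * (rad a * sl a) = c * rad a * (hi A.1 - sl a) := by
      show c * rad a * hi A.1 - c * (rad a * sl a) = _
      ring
    rw [h3, abs_of_nonneg (mul_nonneg hτ.1 (by linarith))]
    calc c * rad a * (hi A.1 - sl a) ≤ 1 * (hi A.1 - sl a) :=
          mul_le_mul_of_nonneg_right hτ.2 (by linarith)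
      _ ≤ spr A.1 := by unfold spr; linarith

theorem dist_arc_arc (hS : S ⊆ Icc 0 1) {τ τ' : ℝ} (hτ : τ ∈ Icc (0 : ℝ) 1)
    (hτ' : τ' ∈ Icc (0 : ℝ) 1) (s : S) : dist (pt τ s) (pt τ' s) ≤ |τ - τ'| := by
  apply dist_le
  · rw [pt_fst hτ, pt_fst hτ']
  · rw [pt_snd hτ, pt_snd hτ', ← sub_mul, abs_mul]
    have h := hS s.2
    rw [abs_of_nonneg h.1]
    exact mul_le_of_le_one_right (abs_nonneg _) h.2

theorem haus_rW (hS : S ⊆ Icc 0 1) (A : W S) :
    dist (rW A) (Hull 1 A.1) ≤ 2 * mn A.1 + √(2 * mn A.1) := by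
  have hm := mn_pos A
  have hd := spr_nonneg A
  have hmM := mn_le_mx A.1
  have hM1 := mx_le_one A.1
  have hsq : 0 ≤ √(2 * mn A.1) := Real.sqrt_nonneg _
  rw [Metric.NonemptyCompacts.dist_eq]
  -- the two basic approximations
  have L1 : ∀ τ ∈ Icc (0 : ℝ) (mx A.1), ∃ y ∈ (Hull 1 A.1 : Set (Fan S)),
      dist (pt τ (top A)) y ≤ spr A.1 := by
    intro τ hτ
    obtain ⟨a, ha, hra⟩ := exists_mx A.1
    have hMp : 0 < mx A.1 := lt_of_lt_of_le hm hmM
    have hc : τ / mx A.1 ∈ Icc (0 : ℝ) 1 :=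
      ⟨div_nonneg hτ.1 hMp.le, (div_le_one hMp).2 hτ.2⟩
    refine ⟨sc (τ / mx A.1) a, mem_Hull.2 ⟨a, ha, _, hc, by rw [mul_one]⟩, ?_⟩
    have h := dist_arc_sc hS A ha hc
    rw [hra, div_mul_cancel₀ _ hMp.ne'] at h
    exact h
  have L2 : ∀ y ∈ (Hull 1 A.1 : Set (Fan S)), ∃ τ ∈ Icc (0 : ℝ) (mx A.1),
      dist y (pt τ (top A)) ≤ spr A.1 := by
    intro y hy
    obtain ⟨a, ha, c, hc, rfl⟩ := mem_Hull.1 hy
    rw [mul_one]
    refine ⟨c * rad a, ⟨mul_nonneg hc.1 (rad_nonneg a), ?_⟩, ?_⟩
    · calc c * rad a ≤ 1 * rad a := mul_le_mul_of_nonneg_right hc.2 (rad_nonneg a)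
        _ ≤ mx A.1 := by rw [one_mul]; exact le_mx ha
    · rw [dist_comm]
      exact dist_arc_sc hS A ha hc
  unfold rW
  split_ifs with h
  · have hℓ0 : 0 ≤ low (mn A.1) (spr A.1) := le_max_left _ _
    have hℓm : low (mn A.1) (spr A.1) ≤ mn A.1 := max_le hm.le (min_le_left _ _)
    have hℓM := hℓm.trans hmM
    refine Metric.hausdorffDist_le_of_mem_dist (by positivity) ?_ ?_
    · intro x hx
      obtain ⟨τ, hτ, rfl⟩ := (mem_Arc hℓM).1 hx
      obtain ⟨y, hy, hxy⟩ := L1 τ ⟨hℓ0.trans hτ.1, hτ.2⟩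
      exact ⟨y, hy, by linarith⟩
    · intro y hy
      obtain ⟨τ, hτ, hyτ⟩ := L2 y hy
      refine ⟨pt (max τ (low (mn A.1) (spr A.1))) (top A),
        (mem_Arc hℓM).2 ⟨_, ⟨le_max_right _ _, max_le hτ.2 hℓM⟩, rfl⟩, ?_⟩
      have h1 := dist_arc_arc hS (τ := τ) (τ' := max τ (low (mn A.1) (spr A.1)))
        ⟨hτ.1, hτ.2.trans hM1⟩ ⟨hτ.1.trans (le_max_left _ _), max_le (hτ.2.trans hM1)
          (hℓM.trans hM1)⟩ (top A)
      have h2 : |τ - max τ (low (mn A.1) (spr A.1))| ≤ mn A.1 := by
        rw [abs_le]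
        rcases max_cases τ (low (mn A.1) (spr A.1)) with ⟨h3, _⟩ | ⟨h3, _⟩
        · rw [h3]; constructor <;> linarith
        · rw [h3]; constructor <;> linarith [hτ.1]
      have h3 := dist_triangle y (pt τ (top A)) (pt (max τ (low (mn A.1) (spr A.1))) (top A))
      linarith
  · rw [not_le] at h
    have hlam1 : lam (mn A.1) (spr A.1) ≤ 1 := min_le_left _ _
    have hlam0 : 0 ≤ lam (mn A.1) (spr A.1) :=
      le_min zero_le_one (div_nonneg (by linarith) hm.le)
    have hmax : max (spr A.1) (mn A.1) = spr A.1 := max_eq_left h.le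
    have hthe0 : 0 ≤ the (mn A.1) (spr A.1) := by
      unfold the
      rw [hmax]
      exact le_min zero_le_one (div_nonneg (by linarith) hd)
    have hthe1 : the (mn A.1) (spr A.1) ≤ 1 := min_le_left _ _
    have hu0 : 0 ≤ the (mn A.1) (spr A.1) * mx A.1 := mul_nonneg hthe0 (hm.le.trans hmM)
    have huM : the (mn A.1) (spr A.1) * mx A.1 ≤ mx A.1 :=
      mul_le_of_le_one_left (hm.le.trans hmM) hthe1
    refine Metric.hausdorffDist_le_of_mem_dist (by positivity) ?_ ?_
    · intro x hx
      rw [NonemptyCompacts.coe_sup] at hx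
      rcases hx with hx | hx
      · obtain ⟨a, ha, c, hc, rfl⟩ := mem_Hull.1 hx
        refine ⟨_, mem_Hull.2 ⟨a, ha, c * lam (mn A.1) (spr A.1),
          ⟨mul_nonneg hc.1 hlam0, mul_le_one₀ hc.2 hlam0 hlam1⟩, rfl⟩, ?_⟩
        rw [mul_one, dist_self]
        positivity
      · obtain ⟨τ, hτ, rfl⟩ := (mem_Arc hu0).1 hx
        by_cases hD : spr A.1 ≤ √(2 * mn A.1)
        · obtain ⟨y, hy, hxy⟩ := L1 τ ⟨hτ.1, hτ.2.trans huM⟩
          exact ⟨y, hy, by linarith⟩
        · rw [not_le] at hD
          obtain ⟨a, ha, hra⟩ := exists_mx A.1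
          refine ⟨sc (0 * 1) a, mem_Hull.2 ⟨a, ha, 0, ⟨le_rfl, zero_le_one⟩, rfl⟩, ?_⟩
          have hτ1 : τ ≤ √(2 * mn A.1) := by
            have h1 : the (mn A.1) (spr A.1) ≤ 2 * mn A.1 / spr A.1 := by
              unfold the
              rw [hmax]
              exact min_le_right _ _
            have h2 : 2 * mn A.1 / spr A.1 ≤ √(2 * mn A.1) := by
              rw [div_le_iff₀ (lt_of_le_of_lt hsq hD)]
              have h3 : √(2 * mn A.1) * √(2 * mn A.1) = 2 * mn A.1 :=
                Real.mul_self_sqrt (by linarith)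
              nlinarith
            calc τ ≤ the (mn A.1) (spr A.1) * mx A.1 := hτ.2
              _ ≤ the (mn A.1) (spr A.1) * 1 := mul_le_mul_of_nonneg_left hM1 hthe0
              _ ≤ _ := by rw [mul_one]; exact h1.trans h2
          have hτI : τ ∈ Icc (0 : ℝ) 1 := ⟨hτ.1, (hτ.2.trans huM).trans hM1⟩
          have h0I : (0 : ℝ) * 1 ∈ Icc (0 : ℝ) 1 := by
            rw [zero_mul]; exact ⟨le_rfl, zero_le_one⟩
          have hs := hS (top A).2
          apply dist_le
          · rw [pt_fst hτI, sc_fst h0I, zero_mul, zero_mul, sub_zero, abs_of_nonneg hτ.1]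
            linarith
          · rw [pt_snd hτI, sc_snd h0I (A.2 ha), zero_mul, zero_mul, sub_zero,
              abs_of_nonneg (mul_nonneg hτ.1 hs.1)]
            have : τ * (top A : ℝ) ≤ τ * 1 := mul_le_mul_of_nonneg_left hs.2 hτ.1
            linarith
    · intro y hy
      by_cases hD : 2 * mn A.1 ≤ spr A.1
      · have hl : lam (mn A.1) (spr A.1) = 1 := by
          unfold lam
          apply min_eq_left
          rw [le_div_iff₀ hm]
          linarith
        refine ⟨y, ?_, by rw [dist_self]; positivity⟩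
        rw [NonemptyCompacts.coe_sup, hl]
        exact Or.inl hy
      · rw [not_le] at hD
        have ht : the (mn A.1) (spr A.1) = 1 := by
          unfold the
          rw [hmax]
          apply min_eq_left
          rw [le_div_iff₀ (by linarith)]
          linarith
        obtain ⟨τ, hτ, hyτ⟩ := L2 y hy
        refine ⟨pt τ (top A), ?_, by linarith⟩
        rw [NonemptyCompacts.coe_sup]
        right
        rw [ht, one_mul]
        exact (mem_Arc (hm.le.trans hmM)).2 ⟨τ, hτ, rfl⟩

theorem not_W {A : NonemptyCompacts (Fan S)} (h : ¬ (A : Set (Fan S)) ⊆ Pos S) :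
    ∃ v ∈ A, rad v = 0 := by
  rw [not_subset] at h
  obtain ⟨v, hv, hv2⟩ := h
  refine ⟨v, hv, le_antisymm (not_lt.1 hv2) (rad_nonneg v)⟩

theorem mn_eq_zero {A : NonemptyCompacts (Fan S)} (h : ¬ (A : Set (Fan S)) ⊆ Pos S) :
    mn A = 0 := by
  obtain ⟨v, hv, hv0⟩ := not_W h
  have := mn_le hv
  rw [hv0] at this
  exact le_antisymm this (mn_nonneg A)

theorem continuous_retr (hS : S ⊆ Icc 0 1) :
    Continuous (retr : NonemptyCompacts (Fan S) → NonemptyCompacts (Fan S)) := by
  rw [continuous_iff_continuousAt]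
  intro A
  by_cases hA : (A : Set (Fan S)) ⊆ Pos S
  · have he := isOpen_W (S := S) |>.isOpenEmbedding_subtypeVal
    have h1 : ContinuousAt (retr ∘ (Subtype.val : W S → _)) ⟨A, hA⟩ := by
      have : (retr ∘ (Subtype.val : W S → _)) = rW := by
        funext B
        show retr B.1 = rW B
        unfold retr
        rw [dif_pos B.2]
      rw [this]
      exact continuous_rW.continuousAt
    exact (he.continuousAt_iff (x := ⟨A, hA⟩)).1 h1
  · have hr : retr A = Hull 1 A := dif_neg hA
    have hH : Tendsto (fun B : NonemptyCompacts (Fan S) => Hull 1 B) (𝓝 A) (𝓝 (Hull 1 A)) :=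
      (continuous_Hull (P := NonemptyCompacts (Fan S)) (k := fun _ => 1) (A := id)
        continuous_const continuous_id).continuousAt
    have hd : Tendsto (fun B : NonemptyCompacts (Fan S) => dist (retr B) (Hull 1 B)) (𝓝 A)
        (𝓝 0) := by
      have h1 : Tendsto (fun B : NonemptyCompacts (Fan S) => 2 * mn B + √(2 * mn B)) (𝓝 A)
          (𝓝 0) := by
        have hc : Continuous (fun B : NonemptyCompacts (Fan S) => 2 * mn B + √(2 * mn B)) := by
          have := continuous_mn (S := S)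
          fun_prop
        have h2 := hc.tendsto A
        rw [mn_eq_zero hA] at h2
        simpa using h2
      refine squeeze_zero (fun _ => dist_nonneg) (fun B => ?_) h1
      by_cases hB : (B : Set (Fan S)) ⊆ Pos S
      · have : retr B = rW ⟨B, hB⟩ := dif_pos hB
        rw [this]
        exact haus_rW hS ⟨B, hB⟩
      · have : retr B = Hull 1 B := dif_neg hB
        rw [this, dist_self]
        have := mn_nonneg B
        positivity
    show Tendsto retr (𝓝 A) (𝓝 (retr A))
    rw [hr]
    exact (tendsto_iff_of_dist hd).2 hH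

end Pool.Agent.Helper578.Fan
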